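import Pool.Agent.Helper61.TQ.Core

set_option autoImplicit false

namespace Pool.Agent.Helper61.TQ

theorem SND_one (hL : ST_LEW) (S : Sys) (ρ : W) (h : S.cut ρ (one (S.m ρ)) ∉ S.K) : ρ ∉ S.K := by
  obtain ⟨h1, h2, h3, h4, h5, h6, h7, h8⟩ := hL
  intro hρ
  obtain ⟨z, hz⟩ := S.hK ρ hρ
  have hl := (S.hV ρ z hz).1
  apply h
  rw [S.hcut ρ (one (S.m ρ)) (by simp [one])]
  refine ⟨z, ?_, hz⟩
  have e1 := h3 z
  have e2 := h5 (S.m ρ)
  rw [hl] at e1
  omega

theorem st_SND (hL : ST_LEW) : ST_SND := by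
  intro S n ρ hP
  have hL' := hL
  obtain ⟨h1, h2, h3, h4, h5, h6, h7, h8⟩ := hL'
  obtain ⟨X, u, hX, hu, s, h⟩ := hP
  rcases h with h | h | h
  · obtain ⟨ha, hb, hc⟩ := h
    apply SND_one hL S ρ
    intro hcon
    have e := S.hχ (S.cut ρ (one (S.m ρ))) (S.node X (u ++ [s]))
    have e1 := e.1 ⟨fun _ => ha, fun _ => hcon⟩
    have e2 := e1.2 hc
    unfold Sys.g at hb
    rw [hb] at e2
    exact absurd e2 (by decide)
  · obtain ⟨ha, hb, hc, hd, he⟩ := h
    unfold Sys.g at hb hd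
    have f1 : S.cut ρ (zer (S.m ρ)) ∉ S.K := by
      rw [S.hcut ρ (zer (S.m ρ)) (by simp [zer])]
      rintro ⟨z, hz1, hz2⟩
      have hl := (S.hV ρ z hz2).1
      have e0 : z = zer (S.m ρ) := h2 z (zer (S.m ρ)) (by simp [zer, hl]) (by
        have := h4 (S.m ρ)
        omega)
      rw [e0, ha] at hz2
      exact absurd hz2 (by decide)
    have f2 := (S.hχ (S.cut ρ (zer (S.m ρ))) (S.node X (u ++ [s]))).2 ⟨fun _ => hc, fun _ => hb⟩
    have f3 : S.node X (u ++ [s]) ∉ S.K := fun h => f1 (f2.2 h)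
    apply SND_one hL S ρ
    have f4 := (S.hχ (S.cut ρ (one (S.m ρ))) (S.node X (u ++ [s]))).2 ⟨fun _ => he, fun _ => hd⟩
    exact fun h => f3 (f4.1 h)
  · obtain ⟨v, c', hv, hc', hle, ha, hb, hc, hd, he, hf, hg, hh⟩ := h
    unfold Sys.g at hb he hg
    set k := S.m ρ - v.length - 1 with hk
    have lz : (v ++ false :: one k).length = S.m ρ := by
      simp [one, hk]
      omega
    have lc : (v ++ true :: zer k).length = S.m ρ := by
      simp [zer, hk]
      omega
    have f1 : S.cut ρ (v ++ false :: one k) ∉ S.K := by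
      intro hcon
      have e := S.hχ (S.cut ρ (v ++ false :: one k)) (S.node X (u ++ [s]))
      have e1 := e.1 ⟨fun _ => ha, fun _ => hcon⟩
      have e2 := e1.2 hc
      rw [hb] at e2
      exact absurd e2 (by decide)
    have f2 : S.cut ρ c' ∉ S.K := by
      rw [S.hcut ρ c' hc']
      rintro ⟨z, hz1, hz2⟩
      have hl := (S.hV ρ z hz2).1
      have e1 := (h1 c' (v ++ true :: zer k) (by rw [hc', lc])).1 hle
      have e2 := h6 v k
      by_cases hcase : val z ≤ val (v ++ false :: one k)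
      · apply f1
        rw [S.hcut ρ _ lz]
        exact ⟨z, hcase, hz2⟩
      · have e3 : z = v ++ true :: zer k := h2 z _ (by rw [hl, lc]) (by omega)
        rw [e3, hd] at hz2
        exact absurd hz2 (by decide)
    have f3 := (S.hχ (S.cut ρ c') (S.node X (u ++ [!s]))).2 ⟨fun _ => hf, fun _ => he⟩
    have f4 : S.node X (u ++ [!s]) ∉ S.K := fun h => f2 (f3.2 h)
    apply SND_one hL S ρ
    have f5 := (S.hχ (S.cut ρ (one (S.m ρ))) (S.node X (u ++ [!s]))).2 ⟨fun _ => hh, fun _ => hg⟩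
    exact fun h => f4 (f5.1 h)

end Pool.Agent.Helper61.TQ
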